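import Pool.Agent.K1H50.PV.Stm
import Pool.Agent.Y486.SQ.Law

set_option autoImplicit false

/-!
# Project PV, job M2: the second moment
-/

namespace Pool.Agent.K1H47.PV

open Finset
open Pool.Agent.Y862.SQ (rH VH V1 Ns)
open Pool.Agent.Y882 (VV)
open Pool.Agent.K1H50.PV

lemma gg_nonneg (h p : ℕ) : 0 ≤ gg h p := div_nonneg (Nat.cast_nonneg _) (Nat.cast_nonneg _)

lemma gg_le (h p : ℕ) (hp : p.Prime) : gg h p ≤ 2 / p := by
  unfold gg
  apply div_le_div_of_nonneg_right _ (Nat.cast_nonneg _)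
  have h1 : rH {h} p ≤ 2 := by
    have h2 := Pool.Agent.Y486.SQ.two_roots 0 h p hp
    refine le_trans (card_le_card ?_) h2
    intro r hr
    rw [mem_filter] at hr ⊢
    obtain ⟨h3, h', h4, h5⟩ := hr
    rw [mem_singleton] at h4
    subst h4
    exact ⟨h3, by simpa using h5⟩
  exact_mod_cast h1

open Classical in
lemma ll_abs (P : Finset ℕ) (c : Finset ℕ → ℝ) (A : ℝ) (hc : ∀ U, |c U| ≤ A) (N : ℕ) :
    |ll P c N| ≤ A * (2 : ℝ) ^ (P.filter (fun p => p ∣ N)).card := by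
  unfold ll VV
  calc |∑ U ∈ P.powerset, c U * ∏ p ∈ U, (if p ∣ N then (1 : ℝ) else 0)|
      ≤ ∑ U ∈ P.powerset, |c U * ∏ p ∈ U, (if p ∣ N then (1 : ℝ) else 0)| :=
        abs_sum_le_sum_abs _ _
    _ ≤ ∑ U ∈ P.powerset, A * ∏ p ∈ U, (if p ∣ N then (1 : ℝ) else 0) := by
        apply sum_le_sum
        intro U _
        have h0 : 0 ≤ ∏ p ∈ U, (if p ∣ N then (1 : ℝ) else 0) :=
          prod_nonneg (fun p _ => by split_ifs <;> norm_num)
        rw [abs_mul, abs_of_nonneg h0]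
        exact mul_le_mul_of_nonneg_right (hc U) h0
    _ = A * ∏ p ∈ P, (1 + if p ∣ N then (1 : ℝ) else 0) := by
        rw [← mul_sum, Finset.prod_one_add]
    _ = A * (2 : ℝ) ^ (P.filter (fun p => p ∣ N)).card := by
        congr 1
        have h1 : ∀ p ∈ P, (1 + if p ∣ N then (1 : ℝ) else 0) = if p ∣ N then (2 : ℝ) else 1 := by
          intro p _
          split_ifs <;> norm_num
        rw [prod_congr rfl h1, prod_ite]
        simp

/-- the indicator -/
noncomputable def ind (y n h : ℕ) (U : Finset ℕ) : ℝ := by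
  classical
  exact if (∀ p ∈ Pool.Agent.Y862.SQ.pr y, ¬ p ∣ n ^ 2 + h) ∧ ∀ p ∈ U, p ∣ n ^ 2 + h then 1 else 0

open Classical in
/-- the term -/
noncomputable def aa (y n h : ℕ) (P : Finset ℕ) (c : Finset ℕ → ℝ) : ℝ :=
  if (∀ p ∈ Pool.Agent.Y862.SQ.pr y, ¬ p ∣ n ^ 2 + h) then ll P c (n ^ 2 + h) else 0

lemma aa_eq (y n h : ℕ) (P : Finset ℕ) (c : Finset ℕ → ℝ) :
    aa y n h P c = ∑ U ∈ P.powerset, c U * ind y n h U := by
  classical
  unfold aa ind ll VV
  by_cases h1 : ∀ p ∈ Pool.Agent.Y862.SQ.pr y, ¬ p ∣ n ^ 2 + h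
  · rw [if_pos h1]
    apply sum_congr rfl
    intro U _
    congr 1
    rw [Finset.prod_ite_zero, prod_const_one]
    by_cases h2 : ∀ p ∈ U, p ∣ n ^ 2 + h
    · rw [if_pos h2, if_pos ⟨h1, h2⟩]
    · rw [if_neg h2, if_neg (fun h3 => h2 h3.2)]
  · rw [if_neg h1]
    symm
    apply sum_eq_zero
    intro U _
    rw [if_neg (fun h3 => h1 h3.1), mul_zero]

lemma cnt_eq (y Z Y h h' : ℕ) (U U' : Finset ℕ) :
    (cnt y Z Y h h' U U' : ℝ) = ∑ n ∈ Ioc Z (Z + Y), ind y n h U * ind y n h' U' := by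
  classical
  unfold cnt
  rw [card_filter]
  push_cast
  apply sum_congr rfl
  intro n _
  unfold ind
  by_cases h1 : (∀ p ∈ Pool.Agent.Y862.SQ.pr y, ¬ p ∣ n ^ 2 + h) ∧ ∀ p ∈ U, p ∣ n ^ 2 + h
  · by_cases h2 : (∀ p ∈ Pool.Agent.Y862.SQ.pr y, ¬ p ∣ n ^ 2 + h') ∧ ∀ p ∈ U', p ∣ n ^ 2 + h'
    · rw [if_pos h1, if_pos h2, if_pos ⟨h1.2, h2.2, fun p hp => ⟨h1.1 p hp, h2.1 p hp⟩⟩, mul_one]
    · rw [if_neg h2, if_neg (fun h3 => h2 ⟨fun p hp => (h3.2.2 p hp).2, h3.2.1⟩), mul_zero]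
  · rw [if_neg h1, if_neg (fun h3 => h1 ⟨fun p hp => (h3.2.2 p hp).1, h3.1⟩), zero_mul]

lemma pair_eq (y Z Y h h' : ℕ) (P : Finset ℕ) (c : Finset ℕ → ℝ) :
    ∑ n ∈ Ioc Z (Z + Y), aa y n h P c * aa y n h' P c =
      ∑ U ∈ P.powerset, ∑ U' ∈ P.powerset, c U * c U' * (cnt y Z Y h h' U U' : ℝ) := by
  simp only [aa_eq, sum_mul_sum, cnt_eq]
  rw [sum_comm]
  apply sum_congr rfl
  intro U _
  rw [sum_comm]
  apply sum_congr rfl
  intro U' _
  rw [mul_sum]
  apply sum_congr rfl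
  intro n _
  ring

lemma sum_mem (P : Finset ℕ) (g : ℕ → ℝ) (hg : ∀ p, 0 ≤ g p) (p : ℕ) (hp : p ∈ P) :
    ∑ U ∈ P.powerset, (if p ∈ U then ∏ q ∈ U, g q else 0) ≤ g p * ∏ q ∈ P, (1 + g q) := by
  classical
  have hP : insert p (P.erase p) = P := insert_erase hp
  have h1 : ∑ U ∈ P.powerset, (if p ∈ U then ∏ q ∈ U, g q else 0) =
      g p * ∏ q ∈ P.erase p, (1 + g q) := by
    rw [← hP, sum_powerset_insert (notMem_erase p P), erase_insert (notMem_erase p P)]
    rw [sum_eq_zero (s := (P.erase p).powerset) (f := fun U => if p ∈ U then ∏ q ∈ U, g q else 0),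
      zero_add, Finset.prod_one_add, mul_sum]
    · apply sum_congr rfl
      intro U hU
      rw [if_pos (mem_insert_self p U), prod_insert]
      intro h2
      exact notMem_erase p P (mem_powerset.1 hU h2)
    · intro U hU
      rw [if_neg]
      intro h2
      exact notMem_erase p P (mem_powerset.1 hU h2)
  rw [h1]
  apply mul_le_mul_of_nonneg_left _ (hg p)
  rw [← mul_prod_erase P (fun q => 1 + g q) hp]
  have h2 : 0 ≤ ∏ q ∈ P.erase p, (1 + g q) := prod_nonneg (fun q _ => by linarith [hg q])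
  nlinarith [hg p]

lemma sum_c {y Z Y T : ℕ} {P : Finset ℕ} {c : Finset ℕ → ℝ} {A D E M : ℝ}
    (hd : Dat y Z Y T P c A D E M) :
    ∑ U ∈ P.powerset, |c U| * (2 : ℝ) ^ U.card ≤ A * M * D := by
  classical
  have hA := hd.A0
  have hM := hd.M1
  have hD := hd.D1
  have h1 : ∑ U ∈ P.powerset, |c U| * (2 : ℝ) ^ U.card =
      ∑ U ∈ P.powerset.filter (fun U => c U ≠ 0), |c U| * (2 : ℝ) ^ U.card := by
    rw [sum_filter]
    apply sum_congr rfl
    intro U _
    by_cases h : c U = 0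
    · rw [if_neg (not_not.2 h), h, abs_zero, zero_mul]
    · rw [if_pos h]
  have h2 : ((P.powerset.filter (fun U => c U ≠ 0)).card : ℝ) ≤ D := by
    have h3 : (P.powerset.filter (fun U => c U ≠ 0)).card ≤ (Icc 1 ⌊D⌋₊).card := by
      apply card_le_card_of_injOn (fun U => ∏ p ∈ U, p)
      · intro U hU
        rw [mem_coe, mem_filter, mem_powerset] at hU
        rw [mem_coe, mem_Icc]
        constructor
        · exact Nat.one_le_iff_ne_zero.2 (prod_ne_zero_iff.2 fun p hp =>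
            (hd.pr p (hU.1 hp)).1.ne_zero)
        · exact Nat.le_floor (hd.cD U hU.1 hU.2).1
      · intro U hU U' hU' he
        rw [mem_coe, mem_filter, mem_powerset] at hU hU'
        have e1 := Nat.primeFactors_prod (s := U) (fun p hp => (hd.pr p (hU.1 hp)).1)
        have e2 := Nat.primeFactors_prod (s := U') (fun p hp => (hd.pr p (hU'.1 hp)).1)
        have he' : ∏ p ∈ U, p = ∏ p ∈ U', p := he
        rw [← e1, he', e2]
    rw [Nat.card_Icc, Nat.add_sub_cancel] at h3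
    exact (Nat.cast_le.2 h3).trans (Nat.floor_le (by linarith))
  rw [h1]
  calc ∑ U ∈ P.powerset.filter (fun U => c U ≠ 0), |c U| * (2 : ℝ) ^ U.card
      ≤ ∑ _U ∈ P.powerset.filter (fun U => c U ≠ 0), A * M := by
        apply sum_le_sum
        intro U hU
        rw [mem_filter, mem_powerset] at hU
        exact mul_le_mul (hd.cA U) (hd.cD U hU.1 hU.2).2 (by positivity) hA
    _ = (P.powerset.filter (fun U => c U ≠ 0)).card * (A * M) := by
        rw [sum_const, nsmul_eq_mul]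
    _ ≤ D * (A * M) := mul_le_mul_of_nonneg_right h2 (mul_nonneg hA (by linarith))
    _ = A * M * D := by ring

/-- one pair -/
lemma pair_bound {y Z Y T : ℕ} {P : Finset ℕ} {c : Finset ℕ → ℝ} {A D E M : ℝ}
    (hd : Dat y Z Y T P c A D E M) (hTy : T ≤ y) {C0 b : ℕ}
    (hcnt : ∀ (Z Y h h' : ℕ) (T T' : Finset ℕ), (∀ p ∈ T, p.Prime ∧ y < p) →
      (∀ p ∈ T', p.Prime ∧ y < p) → Disjoint T T' →
      |(cnt y Z Y h h' T T' : ℝ) - Y * VH {h, h'} y * (∏ p ∈ T, gg h p) * ∏ p ∈ T', gg h' p| ≤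
        (1 / 2 : ℝ) ^ b * (Y * VH {h, h'} y * (∏ p ∈ T, gg h p) * ∏ p ∈ T', gg h' p) +
          2 ^ (T.card + T'.card) * (y : ℝ) ^ (C0 * b))
    {h h' : ℕ} (hh : h ∈ Icc 1 T) (hh' : h' ∈ Icc 1 T) (hne : h ≠ h') :
    ∑ U ∈ P.powerset, ∑ U' ∈ P.powerset, c U * c U' * (cnt y Z Y h h' U U' : ℝ) ≤
      Y * (VH {h, h'} y * (VV P c (gg h) * VV P c (gg h') +
        A ^ 2 * E ^ 2 * ((1 / 2 : ℝ) ^ b + 4 * ∑ p ∈ P, 1 / (p : ℝ) ^ 2))) +
      (A * M * D) ^ 2 * (y : ℝ) ^ (C0 * b) := by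
  classical
  have hA := hd.A0
  have hE := hd.E1
  set V : ℝ := VH {h, h'} y with hV
  have hV0 : 0 ≤ V := Pool.Agent.Y486.SQ.VH_nonneg _ _
  set G : Finset ℕ → ℝ := fun U => ∏ p ∈ U, gg h p with hG
  set G' : Finset ℕ → ℝ := fun U => ∏ p ∈ U, gg h' p with hG'
  have hG0 : ∀ U, 0 ≤ G U := fun U => prod_nonneg (fun p _ => gg_nonneg h p)
  have hG0' : ∀ U, 0 ≤ G' U := fun U => prod_nonneg (fun p _ => gg_nonneg h' p)
  have hY0 : (0 : ℝ) ≤ Y := Nat.cast_nonneg _
  have hpw : (0 : ℝ) ≤ (y : ℝ) ^ (C0 * b) := by positivity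
  have hhalf : (0 : ℝ) ≤ (1 / 2 : ℝ) ^ b := by positivity
  have key : ∀ U ∈ P.powerset, ∀ U' ∈ P.powerset, c U * c U' * (cnt y Z Y h h' U U' : ℝ) ≤
      Y * V * ((c U * G U) * (c U' * G' U')) + (1 / 2 : ℝ) ^ b * A ^ 2 * (Y * V) * (G U * G' U') +
      (y : ℝ) ^ (C0 * b) * ((|c U| * (2 : ℝ) ^ U.card) * (|c U'| * (2 : ℝ) ^ U'.card)) +
      A ^ 2 * (Y * V) * ∑ p ∈ P, (if p ∈ U then G U else 0) * (if p ∈ U' then G' U' else 0) := by
    intro U hU U' hU'
    rw [mem_powerset] at hU hU'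
    have hm0 : 0 ≤ Y * V * G U * G' U' := by
      have := hG0 U
      have := hG0' U'
      positivity
    have hcc : |c U * c U'| ≤ A ^ 2 := by
      rw [abs_mul, sq]
      exact mul_le_mul (hd.cA U) (hd.cA U') (abs_nonneg _) hA
    have hsum0 : 0 ≤ ∑ p ∈ P, (if p ∈ U then G U else 0) * (if p ∈ U' then G' U' else 0) := by
      apply sum_nonneg
      intro p _
      apply mul_nonneg
      · split_ifs
        · exact hG0 U
        · exact le_rfl
      · split_ifs
        · exact hG0' U'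
        · exact le_rfl
    have hp3 : 0 ≤ (|c U| * (2 : ℝ) ^ U.card) * (|c U'| * (2 : ℝ) ^ U'.card) := by positivity
    by_cases hdis : Disjoint U U'
    · have h1 := hcnt Z Y h h' U U' (fun p hp => hd.pr p (hU hp)) (fun p hp => hd.pr p (hU' hp)) hdis
      have h2 : c U * c U' * (cnt y Z Y h h' U U' : ℝ) - c U * c U' * (Y * V * G U * G' U') ≤
          |c U * c U'| * ((1 / 2 : ℝ) ^ b * (Y * V * G U * G' U') +
            2 ^ (U.card + U'.card) * (y : ℝ) ^ (C0 * b)) := by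
        rw [← mul_sub]
        refine (le_abs_self _).trans ?_
        rw [abs_mul]
        exact mul_le_mul_of_nonneg_left h1 (abs_nonneg _)
      have h3 : |c U * c U'| * ((1 / 2 : ℝ) ^ b * (Y * V * G U * G' U')) ≤
          A ^ 2 * ((1 / 2 : ℝ) ^ b * (Y * V * G U * G' U')) :=
        mul_le_mul_of_nonneg_right hcc (by positivity)
      have h4 : 0 ≤ A ^ 2 * (Y * V) *
          ∑ p ∈ P, (if p ∈ U then G U else 0) * (if p ∈ U' then G' U' else 0) := by positivity
      have h5 : |c U * c U'| * (2 ^ (U.card + U'.card) * (y : ℝ) ^ (C0 * b)) =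
          (y : ℝ) ^ (C0 * b) * ((|c U| * (2 : ℝ) ^ U.card) * (|c U'| * (2 : ℝ) ^ U'.card)) := by
        rw [abs_mul, pow_add]
        ring
      nlinarith [h2, h3, h4, h5]
    · have h0 : cnt y Z Y h h' U U' = 0 := by
        unfold cnt
        rw [card_eq_zero, filter_eq_empty_iff]
        rintro n _ ⟨h1, h2, _⟩
        rw [not_disjoint_iff] at hdis
        obtain ⟨p, hp, hp'⟩ := hdis
        have h3 := h1 p hp
        have h4 := h2 p hp'
        have h5 := (hd.pr p (hU hp)).2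
        rw [mem_Icc] at hh hh'
        rcases Nat.lt_or_gt_of_ne hne with h6 | h6
        · have h7 : p ∣ h' - h := by
            have h8 := Nat.dvd_sub h4 h3
            have e : n ^ 2 + h' - (n ^ 2 + h) = h' - h := by omega
            rwa [e] at h8
          have := Nat.le_of_dvd (by omega) h7
          omega
        · have h7 : p ∣ h - h' := by
            have h8 := Nat.dvd_sub h3 h4
            have e : n ^ 2 + h - (n ^ 2 + h') = h - h' := by omega
            rwa [e] at h8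
          have := Nat.le_of_dvd (by omega) h7
          omega
      have h1 : G U * G' U' ≤
          ∑ p ∈ P, (if p ∈ U then G U else 0) * (if p ∈ U' then G' U' else 0) := by
        rw [not_disjoint_iff] at hdis
        obtain ⟨p, hp, hp'⟩ := hdis
        have h2 := single_le_sum (s := P)
          (f := fun p => (if p ∈ U then G U else 0) * (if p ∈ U' then G' U' else 0)) (fun q _ => by
            apply mul_nonneg
            · split_ifs
              · exact hG0 U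
              · exact le_rfl
            · split_ifs
              · exact hG0' U'
              · exact le_rfl) (hU hp)
        rw [if_pos hp, if_pos hp'] at h2
        exact h2
      have h2 : -(c U * c U') ≤ A ^ 2 := (neg_le_abs _).trans hcc
      have h3 : -(c U * c U') * (Y * V * G U * G' U') ≤ A ^ 2 * (Y * V * G U * G' U') :=
        mul_le_mul_of_nonneg_right h2 hm0
      have h4 : A ^ 2 * (Y * V) * (G U * G' U') ≤ A ^ 2 * (Y * V) *
          ∑ p ∈ P, (if p ∈ U then G U else 0) * (if p ∈ U' then G' U' else 0) :=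
        mul_le_mul_of_nonneg_left h1 (by positivity)
      have h5 : 0 ≤ (1 / 2 : ℝ) ^ b * A ^ 2 * (Y * V) * (G U * G' U') := by
        have := hG0 U
        have := hG0' U'
        positivity
      have h6 : 0 ≤ (y : ℝ) ^ (C0 * b) *
          ((|c U| * (2 : ℝ) ^ U.card) * (|c U'| * (2 : ℝ) ^ U'.card)) := by positivity
      rw [h0, Nat.cast_zero, mul_zero]
      nlinarith [h3, h4, h5, h6]
  have hsum := sum_le_sum (fun U hU => sum_le_sum (fun U' hU' => key U hU U' hU'))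
  refine hsum.trans ?_
  simp only [sum_add_distrib, ← mul_sum, ← sum_mul]
  have e1 : ∑ U ∈ P.powerset, c U * G U = VV P c (gg h) := rfl
  have e1' : ∑ U ∈ P.powerset, c U * G' U = VV P c (gg h') := rfl
  have e2 : ∑ U ∈ P.powerset, G U = ∏ p ∈ P, (1 + gg h p) := (Finset.prod_one_add _).symm
  have e2' : ∑ U ∈ P.powerset, G' U = ∏ p ∈ P, (1 + gg h' p) := (Finset.prod_one_add _).symm
  have h3 := sum_c hd
  have h3' : 0 ≤ ∑ U ∈ P.powerset, |c U| * (2 : ℝ) ^ U.card :=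
    sum_nonneg fun U _ => by positivity
  have h4 : ∑ U ∈ P.powerset, ∑ U' ∈ P.powerset,
      ∑ p ∈ P, (if p ∈ U then G U else 0) * (if p ∈ U' then G' U' else 0) ≤
      E ^ 2 * (4 * ∑ p ∈ P, 1 / (p : ℝ) ^ 2) := by
    have h5 : ∑ U ∈ P.powerset, ∑ U' ∈ P.powerset,
        ∑ p ∈ P, (if p ∈ U then G U else 0) * (if p ∈ U' then G' U' else 0) =
        ∑ p ∈ P, (∑ U ∈ P.powerset, (if p ∈ U then G U else 0)) *
          ∑ U' ∈ P.powerset, (if p ∈ U' then G' U' else 0) := by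
      simp only [sum_mul_sum]
      rw [sum_comm]
      rw [sum_comm' (s := P.powerset) (t := fun _ => P.powerset) (t' := P.powerset)
        (s' := fun _ => P.powerset) (by simp)]
      rw [sum_congr rfl fun U _ => sum_comm]
      rw [sum_comm]
    rw [h5, mul_left_comm, mul_sum, mul_sum]
    apply sum_le_sum
    intro p hp
    have hpp := (hd.pr p hp).1
    have hp0 : (0 : ℝ) < p := by exact_mod_cast hpp.pos
    have h6 := sum_mem P (gg h) (gg_nonneg h) p hp
    have h6' := sum_mem P (gg h') (gg_nonneg h') p hp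
    have h7 : gg h p * ∏ q ∈ P, (1 + gg h q) ≤ 2 / p * E :=
      mul_le_mul (gg_le h p hpp) (hd.hE h hh)
        (prod_nonneg fun q _ => by linarith [gg_nonneg h q]) (by positivity)
    have h7' : gg h' p * ∏ q ∈ P, (1 + gg h' q) ≤ 2 / p * E :=
      mul_le_mul (gg_le h' p hpp) (hd.hE h' hh')
        (prod_nonneg fun q _ => by linarith [gg_nonneg h' q]) (by positivity)
    have h8 : 0 ≤ ∑ U' ∈ P.powerset, (if p ∈ U' then G' U' else 0) := by
      apply sum_nonneg
      intro U' _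
      split_ifs
      · exact hG0' U'
      · exact le_rfl
    calc _ ≤ (2 / p * E) * (2 / p * E) :=
          mul_le_mul (h6.trans h7) (h6'.trans h7') h8 (by positivity)
      _ = 4 * (E ^ 2 * (1 / (p : ℝ) ^ 2)) := by
          field_simp
          ring
  have hprodE : 0 ≤ ∏ p ∈ P, (1 + gg h p) := prod_nonneg fun q _ => by linarith [gg_nonneg h q]
  have hprodE' : 0 ≤ ∏ p ∈ P, (1 + gg h' p) :=
    prod_nonneg fun q _ => by linarith [gg_nonneg h' q]
  have h9 : (∏ p ∈ P, (1 + gg h p)) * ∏ p ∈ P, (1 + gg h' p) ≤ E ^ 2 := by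
    rw [sq]
    exact mul_le_mul (hd.hE h hh) (hd.hE h' hh') hprodE' (by linarith)
  rw [e1, e1', e2, e2']
  have h10 : (∑ U ∈ P.powerset, |c U| * (2 : ℝ) ^ U.card) *
      ∑ U ∈ P.powerset, |c U| * (2 : ℝ) ^ U.card ≤ (A * M * D) ^ 2 := by
    rw [sq]
    exact mul_le_mul h3 h3 h3' (h3'.trans h3)
  have hYV : 0 ≤ (Y : ℝ) * V := by positivity
  have h11 : (1 / 2 : ℝ) ^ b * A ^ 2 * (Y * V) *
      ((∏ p ∈ P, (1 + gg h p)) * ∏ p ∈ P, (1 + gg h' p)) ≤
      (1 / 2 : ℝ) ^ b * A ^ 2 * (Y * V) * E ^ 2 := mul_le_mul_of_nonneg_left h9 (by positivity)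
  have h12 := mul_le_mul_of_nonneg_left h4 (show 0 ≤ A ^ 2 * (Y * V) by positivity)
  have h13 := mul_le_mul_of_nonneg_left h10 hpw
  nlinarith [h11, h12, h13]

/-- **M2.** -/
theorem t_M2 (hC : S_CNT) : S_M2 := by
  classical
  obtain ⟨C0, hC0, hC⟩ := hC
  refine ⟨C0, hC0, fun b hb => ?_⟩
  obtain ⟨y0, hy0⟩ := hC b hb
  refine ⟨y0, fun y hy Z Y T P c A D E M hd hTy => ?_⟩
  have hA := hd.A0
  have hM := hd.M1
  have hcnt := hy0 y hy
  have hSS : ∀ n, SS y T P c n = ∑ h ∈ Icc 1 T, aa y n h P c := fun n => rfl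
  have h1 : ∀ n, SS y T P c n ^ 2 = ∑ h ∈ Icc 1 T, aa y n h P c ^ 2 +
      ∑ x ∈ (Icc 1 T).offDiag, aa y n x.1 P c * aa y n x.2 P c := by
    intro n
    rw [hSS, sq, sum_mul_sum, ← sum_product', ← diag_union_offDiag,
      sum_union (disjoint_diag_offDiag _), sum_diag]
    congr 1
    exact sum_congr rfl fun h _ => (sq _).symm
  rw [sum_congr rfl fun n _ => h1 n, sum_add_distrib, add_comm]
  have hoff : ∑ n ∈ Ioc Z (Z + Y), ∑ x ∈ (Icc 1 T).offDiag, aa y n x.1 P c * aa y n x.2 P c ≤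
      Y * ∑ x ∈ (Icc 1 T).offDiag, VH {x.1, x.2} y * (VV P c (gg x.1) * VV P c (gg x.2) +
        A ^ 2 * E ^ 2 * ((1 / 2 : ℝ) ^ b + 4 * ∑ p ∈ P, 1 / (p : ℝ) ^ 2)) +
      (A * M * D * T) ^ 2 * (y : ℝ) ^ (C0 * b) := by
    rw [sum_comm]
    calc _ ≤ ∑ x ∈ (Icc 1 T).offDiag, (Y * (VH {x.1, x.2} y * (VV P c (gg x.1) *
          VV P c (gg x.2) + A ^ 2 * E ^ 2 * ((1 / 2 : ℝ) ^ b + 4 * ∑ p ∈ P, 1 / (p : ℝ) ^ 2))) +
          (A * M * D) ^ 2 * (y : ℝ) ^ (C0 * b)) := by
          apply sum_le_sum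
          intro x hx
          rw [mem_offDiag] at hx
          rw [pair_eq]
          exact pair_bound hd hTy hcnt hx.1 hx.2.1 hx.2.2
      _ ≤ _ := by
          rw [sum_add_distrib, ← mul_sum, sum_const, nsmul_eq_mul]
          have h2 : (((Icc 1 T).offDiag.card : ℕ) : ℝ) ≤ (T : ℝ) ^ 2 := by
            have h3 : (Icc 1 T).offDiag.card ≤ T ^ 2 := by
              rw [offDiag_card, Nat.card_Icc, Nat.add_sub_cancel, sq]
              exact Nat.sub_le _ _
            exact_mod_cast h3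
          have h4 : 0 ≤ (A * M * D) ^ 2 * (y : ℝ) ^ (C0 * b) := by positivity
          have h5 := mul_le_mul_of_nonneg_right h2 h4
          have h6 : (A * M * D * T) ^ 2 * (y : ℝ) ^ (C0 * b) =
              (T : ℝ) ^ 2 * ((A * M * D) ^ 2 * (y : ℝ) ^ (C0 * b)) := by ring
          rw [h6]
          linarith
  have hdiag : ∑ n ∈ Ioc Z (Z + Y), ∑ h ∈ Icc 1 T, aa y n h P c ^ 2 ≤
      (A * M) ^ 2 * ∑ n ∈ Ioc Z (Z + Y), (Ns y T n : ℝ) := by
    rw [mul_sum]
    apply sum_le_sum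
    intro n hn
    calc ∑ h ∈ Icc 1 T, aa y n h P c ^ 2
        ≤ ∑ h ∈ Icc 1 T, (if (∀ p ∈ Pool.Agent.Y862.SQ.pr y, ¬ p ∣ n ^ 2 + h) then
            (A * M) ^ 2 else 0) := by
          apply sum_le_sum
          intro h hh
          unfold aa
          by_cases h2 : ∀ p ∈ Pool.Agent.Y862.SQ.pr y, ¬ p ∣ n ^ 2 + h
          · rw [if_pos h2, if_pos h2]
            have h3 := ll_abs P c A hd.cA (n ^ 2 + h)
            have h4 : |ll P c (n ^ 2 + h)| ≤ A * M := by
              refine h3.trans (mul_le_mul_of_nonneg_left ?_ hA)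
              convert hd.hM n hn h hh
            exact sq_le_sq' (by linarith [neg_le_of_abs_le h4]) (le_of_abs_le h4)
          · rw [if_neg h2, if_neg h2]
            norm_num
      _ = (A * M) ^ 2 * (Ns y T n : ℝ) := by
          rw [← sum_filter, sum_const, nsmul_eq_mul, mul_comm]
          unfold Ns
          congr!
  linarith

end Pool.Agent.K1H47.PV
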